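import Pool.Agent.R857.WS.Concrete
import Pool.Agent.R857.WS.Iso

set_option autoImplicit false

/-!
# A Weierstrass semigroup whose locus in the moduli space has codimension greater than twice the genus

The numerical semigroup `S` generated by `25`, `28` and `35` has genus `114`. It is the Weierstrass
semigroup of a pointed curve over every algebraically closed field of characteristic zero, and the
pointed curves with Weierstrass semigroup `S` depend on at most `107` parameters. So every component
of the locus of these pointed curves in the moduli space of pointed curves of genus `114`, which has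
dimension `3 * 114 - 2 = 340`, has codimension at least `340 - 107 = 233`, and `233 > 228 = 2 * 114`.
-/

namespace Pool.Agent.Results.MP_dde86c_ag.CodimAboveTwiceGenus

open Pool.Agent.R857.WS

/-- The pointed curves `(C, P)` and `(C', P')` are isomorphic: there is an isomorphism over `k` of the
function fields that carries the local ring at `P` to the local ring at `P'`. -/
def IsoPointed (k : Type) {K K' : Type} [Field k] [Field K] [Field K'] [Algebra k K] [Algebra k K']
    (P : ValuationSubring K) (P' : ValuationSubring K') : Prop :=
  ∃ φ : K ≃ₐ[k] K', ∀ f : K, f ∈ P ↔ φ f ∈ P'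

/-- Over an algebraically closed field `k` of characteristic zero: the numerical semigroup `S`
generated by `25, 28, 35` has genus `114` (first two clauses); some pointed curve has Weierstrass
semigroup `S` (third clause); the affine curves `C ∖ {P}`, for all pointed curves `(C, P)` with
Weierstrass semigroup `S`, are fibres of one family over the affine space of dimension `107`, and
the pointed curve is determined up to isomorphism by the coordinate ring of `C ∖ {P}` (fourth and
fifth clause); and `2 * 114 < (3 * 114 - 2) - 107` (last clause). -/
theorem result (k : Type) [Field k] [IsAlgClosed k] [CharZero k] :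
    (((AddSubmonoid.closure ({25, 28, 35} : Set ℕ) : Set ℕ))ᶜ).Finite ∧
    (((AddSubmonoid.closure ({25, 28, 35} : Set ℕ) : Set ℕ))ᶜ).ncard = 114 ∧
    (∃ (K : Type) (_ : Field K) (_ : Algebra k K), IsFunctionField k K ∧
      ∃ P : ValuationSubring K, IsPoint k P ∧
        weierstrassSemigroup k P = (AddSubmonoid.closure ({25, 28, 35} : Set ℕ) : Set ℕ)) ∧
    DependOnAtMost k (AddSubmonoid.closure ({25, 28, 35} : Set ℕ) : Set ℕ) 107 ∧
    (∀ (K K' : Type) [Field K] [Field K'] [Algebra k K] [Algebra k K'],
      IsFunctionField k K → IsFunctionField k K' →
      ∀ (P : ValuationSubring K) (P' : ValuationSubring K'), IsPoint k P → IsPoint k P' →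
        weierstrassSemigroup k P = (AddSubmonoid.closure ({25, 28, 35} : Set ℕ) : Set ℕ) →
        Nonempty (regularAway k P ≃ₐ[k] regularAway k P') → IsoPointed k P P') ∧
    2 * 114 < (3 * 114 - 2) - 107 := by
  refine ⟨compl_finite, genus_eq, exists_pointed_curve k, dependOnAtMost k, ?_, by norm_num⟩
  intro K K' _ _ _ _ hK hK' P P' hP hP' hS ⟨ψ⟩
  have h35 : (35 : ℕ) ∈ weierstrassSemigroup k P := by
    rw [hS]
    exact AddSubmonoid.subset_closure (by simp)
  obtain ⟨x, hx, hx35⟩ := h35
  exact iso_of_regular_iso hK hK' hP hP' hx (hx35.notMem (by norm_num)) ψ

end Pool.Agent.Results.MP_dde86c_ag.CodimAboveTwiceGenus
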